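import Mathlib

open Finset

namespace H343

/-- `e(x) = exp(2 π i x)` -/
noncomputable def ex (x : ℝ) : ℂ := Complex.exp ((2 * Real.pi * x : ℝ) * Complex.I)

/-- squarefree moduli in `(Q, R]` -/
noncomputable def Mod (Q R : ℕ) : Finset ℕ := (Ioc Q R).filter Squarefree

/-- `∑ 1/φ(q)` over the squarefree moduli in `(Q, R]` -/
noncomputable def LL (Q R : ℕ) : ℝ := ∑ q ∈ Mod Q R, (1 : ℝ) / Nat.totient q

/-- Gauss sum of a Dirichlet character -/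
noncomputable def GS {q : ℕ} (χ : DirichletCharacter ℂ q) : ℂ :=
  ∑ b ∈ range q, χ (b : ZMod q) * ex (b / q)

/-- numerators: smooth sum of `χ` over `a ≈ q Y` -/
noncomputable def KK (l : ℝ → ℝ) (Y : ℝ) (N : ℕ) {q : ℕ} (χ : DirichletCharacter ℂ q) : ℂ :=
  ∑ a ∈ Icc 1 N, χ (a : ZMod q) * (l (Real.log (a / (q * Y))) : ℂ)

/-- primes: smooth sum of `Λ χ` over `n ≈ x` -/
noncomputable def PS (f : ℝ → ℝ) (x : ℝ) (M : ℕ) {q : ℕ} (χ : DirichletCharacter ℂ q) : ℂ :=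
  ∑ n ∈ Icc 1 M, (ArithmeticFunction.vonMangoldt n : ℂ) * χ (n : ZMod q) *
    (f (Real.log (n / x)) : ℂ)

/-- test functions: smooth, vanishing for `|v| ≥ B` -/
structure Test (B : ℝ) (f : ℝ → ℝ) : Prop where
  smooth : ContDiff ℝ ((⊤ : ℕ∞) : WithTop ℕ∞) f
  supp : ∀ v, B ≤ |v| → f v = 0

/-- `x, Y` with `H = x Y` in the admissible range -/
structure Range (ε x Y : ℝ) : Prop where
  hx : 0 < x
  hY : 0 < Y
  h1 : 1 ≤ x * Y
  hlow : (x * Y) ^ (1 - ε) ≤ x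
  hhigh : x ≤ (x * Y) ^ (3 / 2 : ℝ)

/-- admissible cut-offs: `Q < q ≤ R` moduli, `a ≤ N`, `n ≤ M` -/
structure Cuts (ε B x Y : ℝ) (Q R N M : ℕ) : Prop where
  hQ1 : (x * Y) ^ (4 * ε) ≤ Q
  hQ2 : (x * Y) ^ (4 * ε) / Y ≤ Q
  hR : (R : ℝ) ≤ (x * Y) ^ (1 / 2 - ε)
  hN : Real.exp B * R * Y ≤ N
  hM : Real.exp B * x ≤ M

/-- the smoothed prime polynomial -/
noncomputable def AAt (b x t : ℝ) : ℂ :=
  ∑' n : ℕ, ((ArithmeticFunction.vonMangoldt n / Real.sqrt n *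
    Real.exp (-(Real.log n - Real.log x) ^ 2 / (2 * b)) : ℝ) : ℂ) *
      Complex.exp (-(t * Real.log n : ℝ) * Complex.I)

end H343
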